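import Mathlib

/-!
# Aharoni's rainbow cycle conjecture for large `n` (MP_962e14_co): module IND
-/

namespace Pool.Agent.helper19.AR

/-- greedy independent set -/
theorem IND {α : Type} [DecidableEq α] (Z : Finset α) (B : Finset (α × α)) (T : ℕ)
    (hB : B.card ≤ 4 * T * Z.card) :
    ∃ W ⊆ Z, Z.card ≤ 2 * (16 * T + 1) * W.card ∧
      ∀ b ∈ B, b.1 ≠ b.2 → ¬ (b.1 ∈ W ∧ b.2 ∈ W) := by
  classical
  let dg : α → Finset (α × α) := fun z => B.filter (fun b => b.1 = z ∨ b.2 = z)
  have hdef : ∀ z, dg z = B.filter (fun b => b.1 = z ∨ b.2 = z) := fun z => rfl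
  have hsum : ∑ z ∈ Z, (dg z).card ≤ 2 * B.card := by
    calc ∑ z ∈ Z, (dg z).card = ∑ z ∈ Z, ∑ b ∈ B, (if b.1 = z ∨ b.2 = z then 1 else 0) := by
          apply Finset.sum_congr rfl
          intro z _
          rw [hdef, Finset.card_filter]
      _ = ∑ b ∈ B, ∑ z ∈ Z, (if b.1 = z ∨ b.2 = z then 1 else 0) := Finset.sum_comm
      _ ≤ ∑ b ∈ B, 2 := by
          apply Finset.sum_le_sum
          intro b _
          rw [← Finset.card_filter]
          calc (Z.filter (fun z => b.1 = z ∨ b.2 = z)).card ≤ ({b.1, b.2} : Finset α).card := by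
                apply Finset.card_le_card
                intro z hz
                rw [Finset.mem_filter] at hz
                rw [Finset.mem_insert, Finset.mem_singleton]
                rcases hz.2 with h | h
                · exact Or.inl h.symm
                · exact Or.inr h.symm
            _ ≤ 2 := Finset.card_le_two
      _ = 2 * B.card := by rw [Finset.sum_const, smul_eq_mul, Nat.mul_comm]
  let L : Finset α := Z.filter (fun z => (dg z).card ≤ 16 * T)
  have hLdef : L = Z.filter (fun z => (dg z).card ≤ 16 * T) := rfl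
  have hL2 : Z.card ≤ 2 * L.card := by
    have h1 : L.card + (Z.filter (fun z => ¬ (dg z).card ≤ 16 * T)).card = Z.card := by
      rw [hLdef]; exact Finset.card_filter_add_card_filter_not _
    have h2 : (Z.filter (fun z => ¬ (dg z).card ≤ 16 * T)).card * (16 * T + 1) ≤ 2 * B.card := by
      calc (Z.filter (fun z => ¬ (dg z).card ≤ 16 * T)).card * (16 * T + 1)
          = ∑ z ∈ Z.filter (fun z => ¬ (dg z).card ≤ 16 * T), (16 * T + 1) := by
            rw [Finset.sum_const, smul_eq_mul]
        _ ≤ ∑ z ∈ Z.filter (fun z => ¬ (dg z).card ≤ 16 * T), (dg z).card := by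
            apply Finset.sum_le_sum
            intro z hz
            have := (Finset.mem_filter.mp hz).2
            omega
        _ ≤ ∑ z ∈ Z, (dg z).card := Finset.sum_le_sum_of_subset (Finset.filter_subset _ _)
        _ ≤ 2 * B.card := hsum
    by_contra hcon
    push Not at hcon
    have h3 : Z.card < 2 * (Z.filter (fun z => ¬ (dg z).card ≤ 16 * T)).card := by omega
    have h4 : (Z.filter (fun z => ¬ (dg z).card ≤ 16 * T)).card * (16 * T + 1) ≤
        8 * T * Z.card := by
      calc _ ≤ 2 * B.card := h2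
        _ ≤ 2 * (4 * T * Z.card) := by omega
        _ = 8 * T * Z.card := by ring
    nlinarith
  -- maximal independent subset of L
  let P : Finset α → Prop := fun W => ∀ b ∈ B, b.1 ≠ b.2 → ¬ (b.1 ∈ W ∧ b.2 ∈ W)
  obtain ⟨W, hW, hWmax⟩ := Finset.exists_max_image (L.powerset.filter P) Finset.card
    ⟨∅, by
      rw [Finset.mem_filter, Finset.mem_powerset]
      exact ⟨Finset.empty_subset _, fun b _ _ h => absurd h.1 (Finset.notMem_empty _)⟩⟩
  rw [Finset.mem_filter, Finset.mem_powerset] at hW
  obtain ⟨hWL, hWP⟩ := hW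
  refine ⟨W, hWL.trans (Finset.filter_subset _ _), ?_, hWP⟩
  have hcov : L \ W ⊆ W.biUnion (fun w => (dg w).image (fun b => if b.1 = w then b.2 else b.1)) := by
    intro x hx
    rw [Finset.mem_sdiff] at hx
    obtain ⟨hxL, hxW⟩ := hx
    have hnot : ¬ P (insert x W) := by
      intro hP
      have h1 := hWmax (insert x W) (by
        rw [Finset.mem_filter, Finset.mem_powerset]
        exact ⟨Finset.insert_subset hxL hWL, hP⟩)
      rw [Finset.card_insert_of_notMem hxW] at h1
      omega
    have hnot' : ∃ b ∈ B, b.1 ≠ b.2 ∧ b.1 ∈ insert x W ∧ b.2 ∈ insert x W := by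
      by_contra hcon
      apply hnot
      intro b hb hne hmem
      exact hcon ⟨b, hb, hne, hmem⟩
    obtain ⟨b, hb, hne, h1, h2⟩ := hnot'
    rw [Finset.mem_insert] at h1 h2
    rw [Finset.mem_biUnion]
    rcases h1 with h1 | h1
    · rcases h2 with h2 | h2
      · exact absurd (h1.trans h2.symm) hne
      · refine ⟨b.2, h2, ?_⟩
        rw [Finset.mem_image]
        refine ⟨b, ?_, ?_⟩
        · rw [hdef, Finset.mem_filter]; exact ⟨hb, Or.inr rfl⟩
        · rw [if_neg hne]; exact h1
    · rcases h2 with h2 | h2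
      · refine ⟨b.1, h1, ?_⟩
        rw [Finset.mem_image]
        refine ⟨b, ?_, ?_⟩
        · rw [hdef, Finset.mem_filter]; exact ⟨hb, Or.inl rfl⟩
        · rw [if_pos rfl]; exact h2
      · exact absurd ⟨h1, h2⟩ (hWP b hb hne)
  have hc1 : (L \ W).card ≤ W.card * (16 * T) := by
    refine (Finset.card_le_card hcov).trans ?_
    apply Finset.card_biUnion_le_card_mul
    intro w hw
    refine Finset.card_image_le.trans ?_
    exact (Finset.mem_filter.mp (hWL hw)).2
  have hc2 : (L \ W).card + W.card = L.card := Finset.card_sdiff_add_card_eq_card hWL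
  have hc3 : L.card ≤ (16 * T + 1) * W.card := by
    rw [Nat.add_mul, Nat.one_mul]
    have : W.card * (16 * T) = 16 * T * W.card := Nat.mul_comm _ _
    omega
  calc Z.card ≤ 2 * L.card := hL2
    _ ≤ 2 * ((16 * T + 1) * W.card) := Nat.mul_le_mul_left _ hc3
    _ = 2 * (16 * T + 1) * W.card := by ring

end Pool.Agent.helper19.AR
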