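import Pool.Agent.helper72.AR.FVa

/-!
# Aharoni's rainbow cycle conjecture for large `n` (MP_962e14_co): module FVS
-/

namespace Pool.Agent.helper19.AR

theorem FVS_ind {α : Type} [DecidableEq α] (out : α → Finset α) (P : Finset α) (ℓ q b : ℕ)
    (hq : 1 ≤ q) (h3 : 3 * q ≤ ℓ) (hb : P.card < q * (b + 1))
    (hc : ∀ A ⊆ P, A.Nonempty → (∀ v ∈ A, ∃ w ∈ out v, w ∈ A) → ℓ < A.card) (n : ℕ) :
    ∀ P' ⊆ P, P'.card = n → ∃ (F : Finset α) (rk : α → ℕ), F ⊆ P' ∧
      (q ≤ P'.card → q * F.card ≤ b * (P'.card - q)) ∧ (P'.card < q → F = ∅) ∧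
      ∀ v ∈ P', v ∉ F → ∀ w ∈ out v, w ∈ P' → w ∉ F → rk v < rk w := by
  induction n using Nat.strong_induction_on with
  | _ n ih =>
  intro P' hP' hn
  by_cases hne : P'.Nonempty
  swap
  · rw [Finset.not_nonempty_iff_eq_empty] at hne
    refine ⟨∅, fun _ => 0, Finset.empty_subset _, ?_, fun _ => rfl, ?_⟩
    · intro _
      rw [Finset.card_empty, Nat.mul_zero]
      exact Nat.zero_le _
    · intro v hv
      rw [hne] at hv
      exact absurd hv (Finset.notMem_empty v)
  by_cases hout : ∀ v ∈ P', ∃ w ∈ out v, w ∈ P'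
  · have hbP' : P'.card < q * (b + 1) := lt_of_le_of_lt (Finset.card_le_card hP') hb
    obtain ⟨X, D, Y, hU, hXD, hXY, hDY, hD, hX, hY, harc⟩ := FVa out P' ℓ q b hq h3 hbP'
      (fun A hA => hc A (hA.trans hP')) hne hout
    have hXP : X ⊆ P' := by
      rw [← hU]; exact Finset.subset_union_left.trans Finset.subset_union_left
    have hDP : D ⊆ P' := by
      rw [← hU]; exact Finset.subset_union_right.trans Finset.subset_union_left
    have hYP : Y ⊆ P' := by
      rw [← hU]; exact Finset.subset_union_right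
    have hcard : X.card + D.card + Y.card = P'.card := by
      rw [← hU, Finset.card_union_of_disjoint (Finset.disjoint_union_left.mpr ⟨hXY, hDY⟩),
        Finset.card_union_of_disjoint hXD]
    obtain ⟨FX, rX, hX1, hX2, _, hX4⟩ := ih X.card (by omega) X (hXP.trans hP') rfl
    obtain ⟨FY, rY, hY1, hY2, _, hY4⟩ := ih Y.card (by omega) Y (hYP.trans hP') rfl
    refine ⟨FX ∪ FY ∪ D, fun x => if x ∈ Y then rY x else Y.sup rY + 1 + rX x, ?_, ?_, ?_, ?_⟩
    · exact Finset.union_subset (Finset.union_subset (hX1.trans hXP) (hY1.trans hYP)) hDP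
    · intro _
      have h1 : (FX ∪ FY ∪ D).card ≤ FX.card + FY.card + D.card :=
        (Finset.card_union_le _ _).trans (Nat.add_le_add_right (Finset.card_union_le _ _) _)
      have h2 := hX2 hX
      have h4 := hY2 hY
      calc q * (FX ∪ FY ∪ D).card ≤ q * (FX.card + FY.card + D.card) := Nat.mul_le_mul_left _ h1
        _ = q * FX.card + q * FY.card + q * D.card := by ring
        _ ≤ b * (X.card - q) + b * (Y.card - q) + q * b :=
            Nat.add_le_add (Nat.add_le_add h2 h4) (Nat.mul_le_mul_left _ hD)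
        _ = b * ((X.card - q) + (Y.card - q) + q) := by ring
        _ ≤ b * (P'.card - q) := Nat.mul_le_mul_left _ (by omega)
    · intro h
      omega
    · intro v hv hvF w hw hwP hwF
      have hvD : v ∉ D := fun h => hvF (Finset.mem_union_right _ h)
      have hvX' : v ∉ FX := fun h => hvF (Finset.mem_union_left _ (Finset.mem_union_left _ h))
      have hvY' : v ∉ FY := fun h => hvF (Finset.mem_union_left _ (Finset.mem_union_right _ h))
      have hwD : w ∉ D := fun h => hwF (Finset.mem_union_right _ h)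
      have hwX' : w ∉ FX := fun h => hwF (Finset.mem_union_left _ (Finset.mem_union_left _ h))
      have hwY' : w ∉ FY := fun h => hwF (Finset.mem_union_left _ (Finset.mem_union_right _ h))
      have hwXY : w ∈ X ∨ w ∈ Y := by
        rw [← hU] at hwP
        rcases Finset.mem_union.mp hwP with h | h
        · rcases Finset.mem_union.mp h with h | h
          · exact Or.inl h
          · exact absurd h hwD
        · exact Or.inr h
      have hvXY : v ∈ X ∨ v ∈ Y := by
        rw [← hU] at hv
        rcases Finset.mem_union.mp hv with h | h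
        · rcases Finset.mem_union.mp h with h | h
          · exact Or.inl h
          · exact absurd h hvD
        · exact Or.inr h
      rcases hvXY with hvX | hvY
      · have hwY : w ∉ Y := harc v hvX w hw
        have hwX : w ∈ X := hwXY.resolve_right hwY
        have hvY : v ∉ Y := Finset.disjoint_left.mp hXY hvX
        have := hX4 v hvX hvX' w hw hwX hwX'
        simp only [if_neg hvY, if_neg hwY]
        omega
      · by_cases hwY : w ∈ Y
        · have := hY4 v hvY hvY' w hw hwY hwY'
          simp only [if_pos hvY, if_pos hwY]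
          exact this
        · have : rY v ≤ Y.sup rY := Finset.le_sup hvY
          simp only [if_pos hvY, if_neg hwY]
          omega
  · push Not at hout
    obtain ⟨v, hv, hvout⟩ := hout
    have hcard : (P'.erase v).card + 1 = P'.card := Finset.card_erase_add_one hv
    obtain ⟨F, rk, h1, h2, h4, h5⟩ := ih (P'.erase v).card (by omega) (P'.erase v)
      ((Finset.erase_subset _ _).trans hP') rfl
    refine ⟨F, fun x => if x = v then (P'.erase v).sup rk + 1 else rk x,
      h1.trans (Finset.erase_subset _ _), ?_, ?_, ?_⟩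
    · intro hqP
      by_cases hq' : q ≤ (P'.erase v).card
      · exact (h2 hq').trans (Nat.mul_le_mul_left _ (by omega))
      · rw [h4 (by omega), Finset.card_empty, Nat.mul_zero]
        exact Nat.zero_le _
    · intro hP'q
      exact h4 (by omega)
    · intro x hx hxF w hw hwP hwF
      have hxv : x ≠ v := by
        intro h
        rw [h] at hw
        exact hvout w hw hwP
      have hx' : x ∈ P'.erase v := Finset.mem_erase.mpr ⟨hxv, hx⟩
      by_cases hwv : w = v
      · have : rk x ≤ (P'.erase v).sup rk := Finset.le_sup hx'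
        simp only [if_neg hxv, if_pos hwv]
        omega
      · simp only [if_neg hxv, if_neg hwv]
        exact h5 x hx' hxF w hw (Finset.mem_erase.mpr ⟨hwv, hwP⟩) hwF

/-- feedback vertex sets -/
theorem FVS {α : Type} [DecidableEq α] (out : α → Finset α) (P : Finset α) (ℓ q b : ℕ)
    (hq : 1 ≤ q) (h3 : 3 * q ≤ ℓ) (hb : P.card < q * (b + 1))
    (hc : ∀ A ⊆ P, A.Nonempty → (∀ v ∈ A, ∃ w ∈ out v, w ∈ A) → ℓ < A.card) :
    ∃ (F : Finset α) (rk : α → ℕ), F ⊆ P ∧ q * F.card ≤ b * P.card ∧
      ∀ v ∈ P, v ∉ F → ∀ w ∈ out v, w ∈ P → w ∉ F → rk v < rk w := by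
  obtain ⟨F, rk, h1, h2, h4, h5⟩ := FVS_ind out P ℓ q b hq h3 hb hc P.card P
    (Finset.Subset.refl _) rfl
  refine ⟨F, rk, h1, ?_, h5⟩
  by_cases hqP : q ≤ P.card
  · exact (h2 hqP).trans (Nat.mul_le_mul_left _ (Nat.sub_le _ _))
  · rw [h4 (by omega), Finset.card_empty, Nat.mul_zero]
    exact Nat.zero_le _

end Pool.Agent.helper19.AR
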