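import Mathlib

/-!
# Aharoni's rainbow cycle conjecture for large `n` (MP_962e14_co): module TRc
-/

namespace Pool.Agent.helper19.AR

/-- many edges give a cycle -/
theorem TRc {V : Type} [Fintype V] [DecidableEq V] (A : Finset V) (F : Finset (Sym2 V))
    (hF : ∀ e ∈ F, ¬ e.IsDiag ∧ ∀ x ∈ e, x ∈ A) (hA : A.Nonempty) (hc : A.card ≤ F.card) :
    ∃ (v : V) (p : (SimpleGraph.fromEdgeSet (F : Set (Sym2 V))).Walk v v),
      p.IsCycle ∧ p.length ≤ A.card := by
  classical
  set G : SimpleGraph V := SimpleGraph.fromEdgeSet (F : Set (Sym2 V)) with hG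
  let H : SimpleGraph A := G.comap (Subtype.val : A → V)
  have hadj : ∀ x y : A, H.Adj x y ↔ G.Adj x.1 y.1 := fun x y => Iff.rfl
  have : Nonempty A := ⟨⟨hA.choose, hA.choose_spec⟩⟩
  have hnot : ¬ H.IsAcyclic := by
    intro hac
    obtain ⟨T, hHT, hT⟩ := (Set.toFinite {T : SimpleGraph A | T.IsAcyclic}).exists_le_maximal hac
    have hT' : Maximal SimpleGraph.IsAcyclic T := hT
    have htree : T.IsTree := SimpleGraph.isTree_iff_maximal_isAcyclic.mpr ⟨inferInstance, hT'⟩
    have h1 := htree.card_edgeFinset
    have h2 : F.card ≤ T.edgeFinset.card := by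
      have hsub : F ⊆ T.edgeFinset.image (Sym2.map (Subtype.val : A → V)) := by
        intro e he
        obtain ⟨hd, hm⟩ := hF e he
        induction e using Sym2.ind with
        | h x y =>
          have hx : x ∈ A := hm x (Sym2.mem_mk_left x y)
          have hy : y ∈ A := hm y (Sym2.mem_mk_right x y)
          rw [Finset.mem_image]
          refine ⟨s(⟨x, hx⟩, ⟨y, hy⟩), ?_, by simp⟩
          rw [SimpleGraph.mem_edgeFinset, SimpleGraph.mem_edgeSet]
          apply hHT
          rw [hadj, hG, SimpleGraph.fromEdgeSet_adj]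
          refine ⟨by simpa using he, ?_⟩
          intro hxy
          apply hd
          rw [Sym2.mk_isDiag_iff]
          exact hxy
      exact (Finset.card_le_card hsub).trans Finset.card_image_le
    have h3 : Fintype.card A = A.card := Fintype.card_coe A
    omega
  rw [SimpleGraph.IsAcyclic] at hnot
  push Not at hnot
  obtain ⟨v, p, hp⟩ := hnot
  let f : H →g G := ⟨Subtype.val, fun {a b} h => h⟩
  have hinj : Function.Injective f := Subtype.val_injective
  refine ⟨f v, p.map f, (SimpleGraph.Walk.isCycle_map_iff_of_injective hinj).mpr hp, ?_⟩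
  rw [SimpleGraph.Walk.length_map]
  have h1 : p.support.tail.Nodup := hp.support_nodup
  have h2 := h1.length_le_card
  rw [List.length_tail, SimpleGraph.Walk.length_support, Fintype.card_coe] at h2
  simpa using h2

end Pool.Agent.helper19.AR
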