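import Mathlib

/-!
# Aharoni's rainbow cycle conjecture for large `n` (MP_962e14_co): module FVa
-/

namespace Pool.Agent.helper19.AR

/-- balls of the breadth first search inside `P` -/
def FVa_ball {α : Type} [DecidableEq α] (out : α → Finset α) (P : Finset α) (v : α) : ℕ → Finset α
  | 0 => {v}
  | (i + 1) => FVa_ball out P v i ∪ (FVa_ball out P v i).biUnion (fun x => out x ∩ P)

theorem FVa_mono {α : Type} [DecidableEq α] (out : α → Finset α) (P : Finset α) (v : α) (i : ℕ) :
    FVa_ball out P v i ⊆ FVa_ball out P v (i + 1) := Finset.subset_union_left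

theorem FVa_mono' {α : Type} [DecidableEq α] (out : α → Finset α) (P : Finset α) (v : α)
    {i j : ℕ} (hij : i ≤ j) : FVa_ball out P v i ⊆ FVa_ball out P v j := by
  induction j, hij using Nat.le_induction with
  | base => exact Finset.Subset.refl _
  | succ j _ ih => exact ih.trans (FVa_mono out P v j)

theorem FVa_step {α : Type} [DecidableEq α] (out : α → Finset α) (P : Finset α) (v : α) (i : ℕ)
    {x w : α} (hx : x ∈ FVa_ball out P v i) (hw : w ∈ out x) (hwP : w ∈ P) :
    w ∈ FVa_ball out P v (i + 1) := by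
  apply Finset.mem_union_right
  rw [Finset.mem_biUnion]
  exact ⟨x, hx, Finset.mem_inter.mpr ⟨hw, hwP⟩⟩

theorem FVa_sub {α : Type} [DecidableEq α] (out : α → Finset α) (P X : Finset α) (v : α)
    (hv : v ∈ X) (hX : ∀ x ∈ X, ∀ w ∈ out x, w ∈ P → w ∈ X) (i : ℕ) :
    FVa_ball out P v i ⊆ X := by
  induction i with
  | zero => exact Finset.singleton_subset_iff.mpr hv
  | succ i ih =>
    apply Finset.union_subset ih
    intro w hw
    rw [Finset.mem_biUnion] at hw
    obtain ⟨x, hx, hw⟩ := hw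
    rw [Finset.mem_inter] at hw
    exact hX x (ih hx) w hw.1 hw.2

theorem FVa_path {α : Type} [DecidableEq α] (out : α → Finset α) (P : Finset α) (v : α)
    (hvP : v ∈ P) (i : ℕ) : ∀ u ∈ FVa_ball out P v i, ∃ A ⊆ P, v ∈ A ∧ u ∈ A ∧ A.card ≤ i + 1 ∧
      ∀ x ∈ A, x ≠ u → ∃ w ∈ out x, w ∈ A := by
  induction i with
  | zero =>
    intro u hu
    have huv : u = v := Finset.mem_singleton.mp hu
    refine ⟨{v}, Finset.singleton_subset_iff.mpr hvP, Finset.mem_singleton_self v, hu, by simp, ?_⟩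
    intro x hx hxu
    exact absurd ((Finset.mem_singleton.mp hx).trans huv.symm) hxu
  | succ i ih =>
    intro u hu
    rcases Finset.mem_union.mp hu with h | h
    · obtain ⟨A, h1, h2, h3, h4, h5⟩ := ih u h
      exact ⟨A, h1, h2, h3, by omega, h5⟩
    · rw [Finset.mem_biUnion] at h
      obtain ⟨z, hz, huz⟩ := h
      rw [Finset.mem_inter] at huz
      obtain ⟨A, h1, h2, h3, h4, h5⟩ := ih z hz
      refine ⟨insert u A, Finset.insert_subset huz.2 h1, Finset.mem_insert_of_mem h2,
        Finset.mem_insert_self u A, (Finset.card_insert_le u A).trans (by omega), ?_⟩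
      intro x hx hxu
      have hxA : x ∈ A := (Finset.mem_insert.mp hx).resolve_left hxu
      by_cases hxz : x = z
      · exact ⟨u, by rw [hxz]; exact huz.1, Finset.mem_insert_self u A⟩
      · obtain ⟨w, hw1, hw2⟩ := h5 x hxA hxz
        exact ⟨w, hw1, Finset.mem_insert_of_mem hw2⟩

/-- the separator lemma -/
theorem FVa {α : Type} [DecidableEq α] (out : α → Finset α) (P : Finset α) (ℓ q b : ℕ)
    (hq : 1 ≤ q) (h3 : 3 * q ≤ ℓ) (hb : P.card < q * (b + 1))
    (hc : ∀ A ⊆ P, A.Nonempty → (∀ v ∈ A, ∃ w ∈ out v, w ∈ A) → ℓ < A.card)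
    (hne : P.Nonempty) (hout : ∀ v ∈ P, ∃ w ∈ out v, w ∈ P) :
    ∃ X D Y : Finset α, X ∪ D ∪ Y = P ∧ Disjoint X D ∧ Disjoint X Y ∧ Disjoint D Y ∧
      D.card ≤ b ∧ q ≤ X.card ∧ q ≤ Y.card ∧ ∀ v ∈ X, ∀ w ∈ out v, w ∉ Y := by
  classical
  let Cl : Finset α → Prop := fun X => X.Nonempty ∧ ∀ x ∈ X, ∀ w ∈ out x, w ∈ P → w ∈ X
  obtain ⟨X0, hX0, hmin⟩ := Finset.exists_min_image (P.powerset.filter Cl) Finset.card
    ⟨P, by
      rw [Finset.mem_filter, Finset.mem_powerset]
      exact ⟨Finset.Subset.refl _, hne, fun _ _ _ _ h => h⟩⟩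
  rw [Finset.mem_filter, Finset.mem_powerset] at hX0
  obtain ⟨hX0P, hX0ne, hX0c⟩ := hX0
  have hmin' : ∀ X ⊆ X0, X.Nonempty → (∀ x ∈ X, ∀ w ∈ out x, w ∈ P → w ∈ X) → X = X0 := by
    intro X hX hXne hXc
    apply Finset.eq_of_subset_of_card_le hX
    apply hmin
    rw [Finset.mem_filter, Finset.mem_powerset]
    exact ⟨hX.trans hX0P, hXne, hXc⟩
  obtain ⟨v, hv⟩ := hX0ne
  have hvP : v ∈ P := hX0P hv
  -- `u` with an arc to `v`
  obtain ⟨u, hu, hvu⟩ : ∃ u ∈ X0, v ∈ out u := by
    by_contra hcon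
    push Not at hcon
    obtain ⟨w, hw1, hw2⟩ := hout v hvP
    have hwv : w ≠ v := by
      intro h
      rw [h] at hw1
      exact hcon v hv hw1
    have hwX : w ∈ X0.erase v := Finset.mem_erase.mpr ⟨hwv, hX0c v hv w hw1 hw2⟩
    have h := hmin' (X0.erase v) (Finset.erase_subset _ _) ⟨w, hwX⟩ (by
      intro x hx z hz hzP
      have hx0 := Finset.mem_of_mem_erase hx
      refine Finset.mem_erase.mpr ⟨?_, hX0c x hx0 z hz hzP⟩
      intro hzv
      rw [hzv] at hz
      exact hcon x hx0 hz)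
    have : v ∈ X0.erase v := by rw [h]; exact hv
    exact absurd rfl (Finset.mem_erase.mp this).1
  set Bl := FVa_ball out P v with hBl
  have hBX : ∀ i, Bl i ⊆ X0 := FVa_sub out P X0 v hv hX0c
  have hBu : ∀ i, i < ℓ → u ∉ Bl i := by
    intro i hi hui
    obtain ⟨A, h1, h2, h3', h4, h5⟩ := FVa_path out P v hvP i u hui
    have := hc A h1 ⟨v, h2⟩ (by
      intro x hx
      by_cases hxu : x = u
      · exact ⟨v, by rw [hxu]; exact hvu, h2⟩
      · exact h5 x hx hxu)
    omega
  have hgrow : ∀ i, i < ℓ → (Bl i).card + 1 ≤ (Bl (i + 1)).card := by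
    intro i hi
    apply Finset.card_lt_card
    refine Finset.ssubset_iff_subset_ne.mpr ⟨FVa_mono out P v i, ?_⟩
    intro heq
    have hvi : v ∈ Bl i := FVa_mono' out P v (Nat.zero_le i) (Finset.mem_singleton_self v)
    have h := hmin' (Bl i) (hBX i) ⟨v, hvi⟩ (by
      intro x hx w hw hwP
      rw [heq]
      exact FVa_step out P v i hx hw hwP)
    exact hBu i hi (by rw [h]; exact hu)
  have hgrow' : ∀ j, j ≤ ℓ → ∀ k ≤ j, (Bl k).card + (j - k) ≤ (Bl j).card := by
    intro j
    induction j with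
    | zero =>
      intro _ k hk
      have : k = 0 := by omega
      rw [this]
      simp
    | succ j ih =>
      intro hj k hk
      by_cases hkj : k = j + 1
      · rw [hkj]; simp
      · have h1 := ih (by omega) k (by omega)
        have h2 := hgrow j (by omega)
        omega
  have hBP : ∀ i, Bl i ⊆ P := fun i => (hBX i).trans hX0P
  -- a small layer
  obtain ⟨j, hj1, hj2, hj3⟩ : ∃ j, q ≤ j + 1 ∧ j + 1 < 2 * q ∧ (Bl (j + 1) \ Bl j).card ≤ b := by
    by_contra hcon
    push Not at hcon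
    have hind : ∀ t, t ≤ q → t * (b + 1) + (Bl (q - 1)).card ≤ (Bl (q - 1 + t)).card := by
      intro t
      induction t with
      | zero => intro _; simp
      | succ t ih =>
        intro ht
        have h1 := ih (by omega)
        have h2 := hcon (q - 1 + t) (by omega) (by omega)
        have h4 : (Bl (q - 1 + t + 1) \ Bl (q - 1 + t)).card + (Bl (q - 1 + t)).card =
            (Bl (q - 1 + t + 1)).card := Finset.card_sdiff_add_card_eq_card (FVa_mono out P v _)
        have h5 : q - 1 + (t + 1) = q - 1 + t + 1 := by omega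
        rw [h5, Nat.add_mul, Nat.one_mul]
        omega
    have h1 := hind q le_rfl
    have h2 := Finset.card_le_card (hBP (q - 1 + q))
    omega
  refine ⟨Bl j, Bl (j + 1) \ Bl j, P \ Bl (j + 1), ?_, ?_, ?_, ?_, hj3, ?_, ?_, ?_⟩
  · rw [Finset.union_sdiff_of_subset (FVa_mono out P v j), Finset.union_sdiff_of_subset (hBP _)]
  · exact Finset.disjoint_sdiff
  · exact (Finset.disjoint_sdiff (s := Bl (j + 1)) (t := P)).mono_left (FVa_mono out P v j)
  · exact (Finset.disjoint_sdiff (s := Bl (j + 1)) (t := P)).mono_left Finset.sdiff_subset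
  · have h1 := hgrow' j (by omega) 0 (Nat.zero_le _)
    have h2 : (Bl 0).card = 1 := Finset.card_singleton v
    omega
  · have h1 := hgrow' ℓ le_rfl (j + 1) (by omega)
    have h2 := Finset.card_le_card (hBP ℓ)
    have h4 : (P \ Bl (j + 1)).card + (Bl (j + 1)).card = P.card :=
      Finset.card_sdiff_add_card_eq_card (hBP _)
    omega
  · intro x hx w hw hwY
    rw [Finset.mem_sdiff] at hwY
    exact hwY.2 (FVa_step out P v j hx hw hwY.1)

end Pool.Agent.helper19.AR
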